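import Pool.Agent.N718.DC.Stm

/-!
Tools for the second moment of the twisted sums.
-/

set_option autoImplicit false

namespace Pool.Agent.N348.DC

open Finset Pool.Agent.N718.DC

theorem abs_jac (a : ℤ) (b : ℕ) : |(jacobiSym a b : ℝ)| ≤ 1 := by
  rcases jacobiSym.trichotomy a b with h | h | h <;> rw [h] <;> simp

/-- averaging over one coordinate -/
theorem avg {m : ℕ} (s : Fin m → Finset (ℤ × ℤ)) (i : Fin m) (F : (Fin m → ℤ × ℤ) → ℝ) :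
    ∑ b ∈ Fintype.piFinset s, ∑ x ∈ s i, F (Function.update b i x) =
      (s i).card * ∑ b ∈ Fintype.piFinset s, F b := by
  classical
  have h1 : ((s i).card : ℝ) * ∑ b ∈ Fintype.piFinset s, F b =
      ∑ b ∈ Fintype.piFinset s, ∑ _x ∈ s i, F b := by
    rw [Finset.mul_sum]
    refine Finset.sum_congr rfl fun b _ => ?_
    rw [Finset.sum_const, nsmul_eq_mul]
  rw [h1, ← Finset.sum_product', ← Finset.sum_product']
  have key : ∀ z ∈ Fintype.piFinset s ×ˢ s i,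
      ((Function.update z.1 i z.2, z.1 i) : (Fin m → ℤ × ℤ) × (ℤ × ℤ)) ∈
        Fintype.piFinset s ×ˢ s i := by
    intro z hz
    rw [Finset.mem_product, Fintype.mem_piFinset] at hz ⊢
    refine ⟨fun k => ?_, hz.1 i⟩
    by_cases hk : k = i
    · subst hk
      change Function.update z.1 k z.2 k ∈ s k
      rw [Function.update_self]
      exact hz.2
    · change Function.update z.1 i z.2 k ∈ s k
      rw [Function.update_of_ne hk]
      exact hz.1 k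
  refine Finset.sum_bij' (fun z _ => (Function.update z.1 i z.2, z.1 i))
    (fun z _ => (Function.update z.1 i z.2, z.1 i)) key key ?_ ?_ ?_
  · intro z _
    simp
  · intro z _
    simp
  · intro z _
    rfl

theorem collect {β : Type} (S : Finset β) (R P : Finset ℕ) (p p' : β → ℕ)
    (hp : ∀ x ∈ S, p x ∈ P) (hp' : ∀ x ∈ S, p' x ∈ R) (A : β → ℝ) (Φ : ℕ → ℕ → ℝ) :
    ∑ x ∈ S, A x * Φ (p' x) (p x) =
      ∑ c ∈ R, ∑ q ∈ P, (∑ x ∈ S.filter (fun x => p' x = c ∧ p x = q), A x) * Φ c q := by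
  classical
  rw [← Finset.sum_product', ← Finset.sum_fiberwise_of_maps_to (s := S) (t := R ×ˢ P)
    (g := fun x => (p' x, p x)) (fun x hx => Finset.mem_product.2 ⟨hp' x hx, hp x hx⟩)]
  refine Finset.sum_congr rfl fun z _ => ?_
  rw [Finset.sum_mul]
  refine Finset.sum_congr ?_ fun x hx => ?_
  · ext x
    simp only [Finset.mem_filter, Prod.ext_iff]
  · rw [Finset.mem_filter] at hx
    rw [hx.2.1, hx.2.2]

theorem abs_fib {β : Type} (S : Finset β) (p p' : β → ℕ)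
    (hinj : ∀ x ∈ S, ∀ y ∈ S, p x = p y → p' x = p' y → x = y) (A : β → ℝ) {a : ℝ} (ha : 0 ≤ a)
    (hA : ∀ x ∈ S, |A x| ≤ a) (c q : ℕ) :
    |∑ x ∈ S.filter (fun x => p' x = c ∧ p x = q), A x| ≤ a := by
  have h1 : (S.filter (fun x => p' x = c ∧ p x = q)).card ≤ 1 := by
    rw [Finset.card_le_one]
    intro x hx y hy
    rw [Finset.mem_filter] at hx hy
    exact hinj x hx.1 y hy.1 (hx.2.2.trans hy.2.2.symm) (hx.2.1.trans hy.2.1.symm)
  refine (Finset.abs_sum_le_sum_abs _ _).trans ?_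
  refine (Finset.sum_le_card_nsmul _ _ a fun x hx => hA x (Finset.mem_filter.1 hx).1).trans ?_
  rw [nsmul_eq_mul]
  have h2 : ((S.filter (fun x => p' x = c ∧ p x = q)).card : ℝ) ≤ 1 := by exact_mod_cast h1
  exact mul_le_of_le_one_left ha h2

/-- the bilinear bound -/
theorem bl {C : ℝ} (hC : ∀ X : ℕ, 1 ≤ X → ∀ α β : ℕ → ℝ, (∀ n, |α n| ≤ 1) →
    (∀ n, |β n| ≤ 1) → |∑ p ∈ (Icc 3 X).filter Nat.Prime, ∑ l ∈ (Icc 3 X).filter Nat.Prime,
    α p * β l * (jacobiSym (p : ℤ) l : ℝ)| ≤ C * (X : ℝ) ^ (15 / 8 : ℝ)) {X : ℕ} (hX : 1 ≤ X)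
    {β₁ β₂ : Type} (S₁ : Finset β₁) (S₂ : Finset β₂) (p p' : β₁ → ℕ) (l l' : β₂ → ℕ)
    (A : β₁ → ℝ) (B : β₂ → ℝ) (ψ : ℕ → ℕ → ℝ) (hψ : ∀ c d, |ψ c d| ≤ 1)
    (hi₁ : ∀ x ∈ S₁, ∀ y ∈ S₁, p x = p y → p' x = p' y → x = y)
    (hi₂ : ∀ x ∈ S₂, ∀ y ∈ S₂, l x = l y → l' x = l' y → x = y)
    (hp : ∀ x ∈ S₁, p x ∈ (Icc 3 X).filter Nat.Prime) (hp' : ∀ x ∈ S₁, p' x ∈ range (X + 1))
    (hl : ∀ x ∈ S₂, l x ∈ (Icc 3 X).filter Nat.Prime) (hl' : ∀ x ∈ S₂, l' x ∈ range (X + 1))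
    {a b : ℝ} (ha : 0 < a) (hb : 0 < b) (hA : ∀ x ∈ S₁, |A x| ≤ a) (hB : ∀ x ∈ S₂, |B x| ≤ b) :
    |∑ x ∈ S₁, ∑ y ∈ S₂, A x * B y * ((jacobiSym (p x : ℤ) (l y) : ℝ) * ψ (p' x) (l' y))| ≤
      ((X : ℝ) + 1) ^ 2 * (a * b * (C * (X : ℝ) ^ (15 / 8 : ℝ))) := by
  classical
  set P := (Icc 3 X).filter Nat.Prime with hP
  set R := range (X + 1) with hR
  obtain ⟨α, hα⟩ : ∃ α : ℕ → ℕ → ℝ, ∀ c q,
      α c q = ∑ x ∈ S₁.filter (fun x => p' x = c ∧ p x = q), A x := ⟨_, fun _ _ => rfl⟩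
  obtain ⟨β, hβ⟩ : ∃ β : ℕ → ℕ → ℝ, ∀ d q,
      β d q = ∑ x ∈ S₂.filter (fun x => l' x = d ∧ l x = q), B x := ⟨_, fun _ _ => rfl⟩
  have e1 : ∑ x ∈ S₁, ∑ y ∈ S₂, A x * B y * ((jacobiSym (p x : ℤ) (l y) : ℝ) *
      ψ (p' x) (l' y)) = ∑ x ∈ S₁, A x * (fun c q : ℕ => ∑ d ∈ R, ∑ k ∈ P, β d k *
        ((jacobiSym (q : ℤ) k : ℝ) * ψ c d)) (p' x) (p x) := by
    refine Finset.sum_congr rfl fun x _ => ?_
    beta_reduce
    have e2 := collect S₂ R P l l' hl hl' B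
      (fun d k => (jacobiSym (p x : ℤ) k : ℝ) * ψ (p' x) d)
    simp only [← hβ] at e2
    rw [← e2, Finset.mul_sum]
    refine Finset.sum_congr rfl fun y _ => ?_
    ring
  have e5 := collect S₁ R P p p' hp hp' A (fun c q : ℕ => ∑ d ∈ R, ∑ k ∈ P, β d k *
        ((jacobiSym (q : ℤ) k : ℝ) * ψ c d))
  simp only [← hα] at e5
  rw [e1]
  beta_reduce
  rw [e5]
  have e3 : ∑ c ∈ R, ∑ q ∈ P, α c q * ∑ d ∈ R, ∑ k ∈ P, β d k *
      ((jacobiSym (q : ℤ) k : ℝ) * ψ c d) = ∑ c ∈ R, ∑ d ∈ R, ψ c d * (a * b) *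
        ∑ q ∈ P, ∑ k ∈ P, (α c q / a) * (β d k / b) * (jacobiSym (q : ℤ) k : ℝ) := by
    refine Finset.sum_congr rfl fun c _ => ?_
    simp only [Finset.mul_sum]
    rw [Finset.sum_comm]
    refine Finset.sum_congr rfl fun d _ => Finset.sum_congr rfl fun q _ =>
      Finset.sum_congr rfl fun k _ => ?_
    field_simp
  rw [e3]
  have e4 : ∀ c ∈ R, ∀ d ∈ R, |ψ c d * (a * b) *
        ∑ q ∈ P, ∑ k ∈ P, (α c q / a) * (β d k / b) * (jacobiSym (q : ℤ) k : ℝ)| ≤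
      a * b * (C * (X : ℝ) ^ (15 / 8 : ℝ)) := by
    intro c _ d _
    have h1 := hC X hX (fun q => α c q / a) (fun k => β d k / b) (fun q => by
      rw [abs_div, abs_of_pos ha, div_le_one ha, hα]
      exact abs_fib S₁ p p' hi₁ A ha.le hA c q) (fun k => by
      rw [abs_div, abs_of_pos hb, div_le_one hb, hβ]
      exact abs_fib S₂ l l' hi₂ B hb.le hB d k)
    rw [abs_mul, abs_mul, abs_of_pos (mul_pos ha hb)]
    have h2 : |ψ c d| * (a * b) ≤ a * b := mul_le_of_le_one_left (mul_pos ha hb).le (hψ c d)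
    exact mul_le_mul h2 h1 (abs_nonneg _) (mul_pos ha hb).le
  refine (Finset.abs_sum_le_sum_abs _ _).trans ?_
  refine (Finset.sum_le_sum fun c hc => (Finset.abs_sum_le_sum_abs _ _).trans
    (Finset.sum_le_sum fun d hd => e4 c hc d hd)).trans ?_
  rw [Finset.sum_const, Finset.sum_const, hR, Finset.card_range, nsmul_eq_mul, nsmul_eq_mul]
  push_cast
  exact le_of_eq (by ring)

end Pool.Agent.N348.DC
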