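import Pool.Agent.N348.DC.Bil

/-!
The cross terms of the second moment of the twisted sums.
-/

set_option autoImplicit false

namespace Pool.Agent.N348.DC

open Finset Pool.Agent.N718.DC

variable {m : ℕ}

/-- the symbol attached to a pair of indices -/
noncomputable def jc (D : Data m) (t : ℕ) (b : Fin m → ℤ × ℤ) (z : Fin m × Fin m) : ℝ :=
  (jacobiSym (D.val z.1 t (b z.1)) (D.val z.2 t (b z.2)).natAbs : ℝ)

/-- the twisted term -/
noncomputable def E (D : Data m) (J : Finset (Fin m × Fin m)) (t : ℕ) (b : Fin m → ℤ × ℤ) : ℝ :=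
  D.f t b * ∏ z ∈ J, jc D t b z

theorem jc_congr (D : Data m) (t : ℕ) {b b' : Fin m → ℤ × ℤ} {z : Fin m × Fin m}
    (h1 : b z.1 = b' z.1) (h2 : b z.2 = b' z.2) : jc D t b z = jc D t b' z := by
  unfold jc
  rw [h1, h2]

theorem abs_prod_jc (D : Data m) (t : ℕ) (b : Fin m → ℤ × ℤ) (S : Finset (Fin m × Fin m)) :
    |∏ z ∈ S, jc D t b z| ≤ 1 := by
  rw [Finset.abs_prod]
  refine Finset.prod_le_one (fun z _ => abs_nonneg _) fun z _ => abs_jac _ _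

theorem E_split (D : Data m) (J : Finset (Fin m × Fin m)) {i₀ j₀ : Fin m} (hJ : (i₀, j₀) ∈ J)
    (hlt : ∀ x ∈ J, x.1 < x.2) (t : ℕ) (b : Fin m → ℤ × ℤ) (x y : ℤ × ℤ) :
    E D J t (Function.update (Function.update b i₀ x) j₀ y) =
      (∏ i ∈ (univ.erase i₀).erase j₀, lam (D.val i t (b i))) *
      ((lam (D.val i₀ t x) * ∏ z ∈ (J.erase (i₀, j₀)).filter (fun z => z.1 ≠ j₀ ∧ z.2 ≠ j₀),
          jc D t (Function.update b i₀ x) z) *
        (lam (D.val j₀ t y) * ∏ z ∈ (J.erase (i₀, j₀)).filter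
          (fun z => ¬ (z.1 ≠ j₀ ∧ z.2 ≠ j₀)), jc D t (Function.update b j₀ y) z)) *
      (jacobiSym (D.val i₀ t x) (D.val j₀ t y).natAbs : ℝ) := by
  have hij : i₀ ≠ j₀ := (hlt _ hJ).ne
  obtain ⟨b', hb'⟩ : ∃ b', b' = Function.update (Function.update b i₀ x) j₀ y := ⟨_, rfl⟩
  rw [← hb']
  have hi0 : b' i₀ = x := by
    rw [hb', Function.update_of_ne hij, Function.update_self]
  have hj0 : b' j₀ = y := by
    rw [hb', Function.update_self]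
  have hne : ∀ i, i ≠ i₀ → i ≠ j₀ → b' i = b i := by
    intro i h1 h2
    rw [hb', Function.update_of_ne h2, Function.update_of_ne h1]
  have hne1 : ∀ i, i ≠ j₀ → b' i = Function.update b i₀ x i := by
    intro i h1
    rw [hb', Function.update_of_ne h1]
  have hne2 : ∀ i, i ≠ i₀ → b' i = Function.update b j₀ y i := by
    intro i h1
    by_cases h2 : i = j₀
    · rw [h2, hj0, Function.update_self]
    · rw [hne i h1 h2, Function.update_of_ne h2]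
  have e1 : D.f t b' = lam (D.val i₀ t x) * (lam (D.val j₀ t y) *
      ∏ i ∈ (univ.erase i₀).erase j₀, lam (D.val i t (b i))) := by
    unfold Data.f
    rw [← Finset.mul_prod_erase univ _ (Finset.mem_univ i₀), hi0,
      ← Finset.mul_prod_erase (univ.erase i₀) _ (Finset.mem_erase.2 ⟨hij.symm, Finset.mem_univ j₀⟩),
      hj0]
    congr 2
    refine Finset.prod_congr rfl fun i hi => ?_
    rw [Finset.mem_erase, Finset.mem_erase] at hi
    rw [hne i hi.2.1 hi.1]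
  have e2 : ∏ z ∈ J, jc D t b' z = (jacobiSym (D.val i₀ t x) (D.val j₀ t y).natAbs : ℝ) *
      ((∏ z ∈ (J.erase (i₀, j₀)).filter (fun z => z.1 ≠ j₀ ∧ z.2 ≠ j₀),
          jc D t (Function.update b i₀ x) z) *
        ∏ z ∈ (J.erase (i₀, j₀)).filter
          (fun z => ¬ (z.1 ≠ j₀ ∧ z.2 ≠ j₀)), jc D t (Function.update b j₀ y) z) := by
    rw [← Finset.mul_prod_erase J _ hJ]
    have e3 : jc D t b' (i₀, j₀) = (jacobiSym (D.val i₀ t x) (D.val j₀ t y).natAbs : ℝ) := by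
      unfold jc
      rw [hi0, hj0]
    rw [e3, ← Finset.prod_filter_mul_prod_filter_not (J.erase (i₀, j₀))
      (fun z => z.1 ≠ j₀ ∧ z.2 ≠ j₀)]
    congr 2
    · refine Finset.prod_congr rfl fun z hz => ?_
      rw [Finset.mem_filter] at hz
      exact jc_congr D t (hne1 _ hz.2.1) (hne1 _ hz.2.2)
    · refine Finset.prod_congr rfl fun z hz => ?_
      rw [Finset.mem_filter, Finset.mem_erase] at hz
      obtain ⟨⟨hz1, hz2⟩, hz3⟩ := hz
      have hz4 := hlt z hz2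
      have h1 : z.1 ≠ i₀ := by
        intro h
        have h2 : z.2 = j₀ := by
          by_contra h3
          exact hz3 ⟨by rw [h]; exact hij, h3⟩
        exact hz1 (Prod.ext h h2)
      have h2 : z.2 ≠ i₀ := by
        intro h
        have h3 : z.1 = j₀ := by
          by_contra h4
          exact hz3 ⟨h4, by rw [h]; exact hij⟩
        rw [h, h3] at hz4
        exact absurd (hlt _ hJ) (not_lt.2 hz4.le)
      exact jc_congr D t (hne2 _ h1) (hne2 _ h2)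
  unfold E
  rw [e1, e2]
  ring

theorem cross_fixed {C : ℝ} (hC : ∀ X : ℕ, 1 ≤ X → ∀ α β : ℕ → ℝ, (∀ n, |α n| ≤ 1) →
    (∀ n, |β n| ≤ 1) → |∑ p ∈ (Icc 3 X).filter Nat.Prime, ∑ l ∈ (Icc 3 X).filter Nat.Prime,
    α p * β l * (jacobiSym (p : ℤ) l : ℝ)| ≤ C * (X : ℝ) ^ (15 / 8 : ℝ)) {X : ℕ} (hX : 1 ≤ X)
    (D : Data m) (J : Finset (Fin m × Fin m)) {i₀ j₀ : Fin m} (hJ : (i₀, j₀) ∈ J)
    (hlt : ∀ x ∈ J, x.1 < x.2) {t t' : ℕ} (s : Fin m → Finset (ℤ × ℤ)) {ℓ : ℝ} (hℓ : 1 ≤ ℓ)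
    (h1 : ∀ i, ∀ c ∈ s i, |lam (D.val i t c)| ≤ ℓ ∧ |lam (D.val i t' c)| ≤ ℓ ∧
      (D.val i t c).natAbs ≤ X ∧ (D.val i t' c).natAbs ≤ X)
    (h2 : ∀ i c, lam (D.val i t c) ≠ 0 →
      0 < D.val i t c ∧ (D.val i t c).natAbs.Prime ∧ 3 ≤ (D.val i t c).natAbs)
    (h2' : ∀ i c, lam (D.val i t' c) ≠ 0 →
      0 < D.val i t' c ∧ (D.val i t' c).natAbs.Prime ∧ 3 ≤ (D.val i t' c).natAbs)
    (h3 : ∀ i c c', D.val i t c = D.val i t c' → D.val i t' c = D.val i t' c' → c = c')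
    (b : Fin m → ℤ × ℤ) (hb : b ∈ Fintype.piFinset s) :
    |∑ x ∈ s i₀, ∑ y ∈ s j₀, E D J t (Function.update (Function.update b i₀ x) j₀ y) *
      E D J t' (Function.update (Function.update b i₀ x) j₀ y)| ≤
      (ℓ ^ m) ^ 2 * (((X : ℝ) + 1) ^ 2 * (ℓ ^ 2 * ℓ ^ 2 * (C * (X : ℝ) ^ (15 / 8 : ℝ)))) := by
  classical
  have hℓ0 : 0 < ℓ := by linarith
  rw [Fintype.mem_piFinset] at hb
  obtain ⟨P1, hP1⟩ : ∃ P1 : ℕ → ℤ × ℤ → ℝ, ∀ t x, P1 t x = ∏ z ∈ (J.erase (i₀, j₀)).filter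
      (fun z => z.1 ≠ j₀ ∧ z.2 ≠ j₀), jc D t (Function.update b i₀ x) z := ⟨_, fun _ _ => rfl⟩
  obtain ⟨P2, hP2⟩ : ∃ P2 : ℕ → ℤ × ℤ → ℝ, ∀ t y, P2 t y = ∏ z ∈ (J.erase (i₀, j₀)).filter
      (fun z => ¬ (z.1 ≠ j₀ ∧ z.2 ≠ j₀)), jc D t (Function.update b j₀ y) z :=
    ⟨_, fun _ _ => rfl⟩
  obtain ⟨K, hK⟩ : ∃ K : ℕ → ℝ, ∀ t, K t = ∏ i ∈ (univ.erase i₀).erase j₀,
      lam (D.val i t (b i)) := ⟨_, fun _ => rfl⟩
  have hP1' : ∀ t x, |P1 t x| ≤ 1 := fun t x => by rw [hP1]; exact abs_prod_jc _ _ _ _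
  have hP2' : ∀ t x, |P2 t x| ≤ 1 := fun t x => by rw [hP2]; exact abs_prod_jc _ _ _ _
  have hKb : ∀ τ, (∀ i, |lam (D.val i τ (b i))| ≤ ℓ) → |K τ| ≤ ℓ ^ m := by
    intro τ hτ
    rw [hK, Finset.abs_prod]
    calc ∏ i ∈ (univ.erase i₀).erase j₀, |lam (D.val i τ (b i))|
        ≤ ∏ _i ∈ (univ.erase i₀).erase j₀, ℓ :=
          Finset.prod_le_prod (fun i _ => abs_nonneg _) fun i _ => hτ i
      _ = ℓ ^ ((univ.erase i₀).erase j₀).card := by rw [Finset.prod_const]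
      _ ≤ ℓ ^ m := by
          refine pow_le_pow_right₀ hℓ ?_
          refine (Finset.card_le_univ _).trans ?_
          rw [Fintype.card_fin]
  have hKt := hKb t fun i => (h1 i _ (hb i)).1
  have hKt' := hKb t' fun i => (h1 i _ (hb i)).2.1
  have hE : ∀ τ x y, E D J τ (Function.update (Function.update b i₀ x) j₀ y) =
      K τ * ((lam (D.val i₀ τ x) * P1 τ x) * (lam (D.val j₀ τ y) * P2 τ y)) *
      (jacobiSym (D.val i₀ τ x) (D.val j₀ τ y).natAbs : ℝ) := by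
    intro τ x y
    rw [E_split D J hJ hlt, hK, hP1, hP2]
  obtain ⟨S₁, hS₁⟩ : ∃ S₁, S₁ = (s i₀).filter
      (fun x => lam (D.val i₀ t x) ≠ 0 ∧ lam (D.val i₀ t' x) ≠ 0) := ⟨_, rfl⟩
  obtain ⟨S₂, hS₂⟩ : ∃ S₂, S₂ = (s j₀).filter
      (fun x => lam (D.val j₀ t x) ≠ 0 ∧ lam (D.val j₀ t' x) ≠ 0) := ⟨_, rfl⟩
  have hm1 : ∀ x ∈ S₁, x ∈ s i₀ ∧ lam (D.val i₀ t x) ≠ 0 ∧ lam (D.val i₀ t' x) ≠ 0 := by
    intro x hx
    rw [hS₁, Finset.mem_filter] at hx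
    exact hx
  have hm2 : ∀ x ∈ S₂, x ∈ s j₀ ∧ lam (D.val j₀ t x) ≠ 0 ∧ lam (D.val j₀ t' x) ≠ 0 := by
    intro x hx
    rw [hS₂, Finset.mem_filter] at hx
    exact hx
  have e1 : ∑ x ∈ s i₀, ∑ y ∈ s j₀, E D J t (Function.update (Function.update b i₀ x) j₀ y) *
      E D J t' (Function.update (Function.update b i₀ x) j₀ y) =
      ∑ x ∈ S₁, ∑ y ∈ S₂, E D J t (Function.update (Function.update b i₀ x) j₀ y) *
      E D J t' (Function.update (Function.update b i₀ x) j₀ y) := by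
    symm
    have hsub1 : S₁ ⊆ s i₀ := fun x hx => (hm1 x hx).1
    have hsub2 : S₂ ⊆ s j₀ := fun x hx => (hm2 x hx).1
    refine (Finset.sum_congr rfl fun x _ => ?_).trans (Finset.sum_subset hsub1 fun x hx hx' => ?_)
    · refine Finset.sum_subset hsub2 fun y hy hy' => ?_
      rw [hE, hE]
      rw [hS₂, Finset.mem_filter, not_and, not_and_or, not_not, not_not] at hy'
      rcases hy' hy with h | h <;> rw [h] <;> ring
    · refine Finset.sum_eq_zero fun y _ => ?_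
      rw [hE, hE]
      rw [hS₁, Finset.mem_filter, not_and, not_and_or, not_not, not_not] at hx'
      rcases hx' hx with h | h <;> rw [h] <;> ring
  have e2 : ∑ x ∈ S₁, ∑ y ∈ S₂, E D J t (Function.update (Function.update b i₀ x) j₀ y) *
      E D J t' (Function.update (Function.update b i₀ x) j₀ y) =
      (K t * K t') * ∑ x ∈ S₁, ∑ y ∈ S₂,
        (lam (D.val i₀ t x) * P1 t x * (lam (D.val i₀ t' x) * P1 t' x)) *
        (lam (D.val j₀ t y) * P2 t y * (lam (D.val j₀ t' y) * P2 t' y)) *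
        ((jacobiSym (((D.val i₀ t x).natAbs : ℕ) : ℤ) (D.val j₀ t y).natAbs : ℝ) *
          (fun c d : ℕ => (jacobiSym (c : ℤ) d : ℝ)) (D.val i₀ t' x).natAbs
            (D.val j₀ t' y).natAbs) := by
    rw [Finset.mul_sum]
    refine Finset.sum_congr rfl fun x hx => ?_
    rw [Finset.mul_sum]
    refine Finset.sum_congr rfl fun y _ => ?_
    obtain ⟨-, q1, q2⟩ := hm1 x hx
    rw [hE, hE]
    beta_reduce
    rw [Int.natAbs_of_nonneg (h2 i₀ x q1).1.le, Int.natAbs_of_nonneg (h2' i₀ x q2).1.le]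
    ring
  rw [e1, e2, abs_mul]
  have hAB : ∀ w₁ w₂ r₁ r₂ : ℝ, |w₁| ≤ ℓ → |w₂| ≤ ℓ → |r₁| ≤ 1 → |r₂| ≤ 1 →
      |w₁ * r₁ * (w₂ * r₂)| ≤ ℓ ^ 2 := by
    intro w₁ w₂ r₁ r₂ g1 g2 g3 g4
    rw [abs_mul, abs_mul, abs_mul, sq]
    have g5 : |w₁| * |r₁| ≤ ℓ := by
      have := mul_le_mul g1 g3 (abs_nonneg _) hℓ0.le
      linarith
    have g6 : |w₂| * |r₂| ≤ ℓ := by
      have := mul_le_mul g2 g4 (abs_nonneg _) hℓ0.le
      linarith
    exact mul_le_mul g5 g6 (by positivity) hℓ0.le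
  have hb1 := bl hC hX S₁ S₂ (fun x => (D.val i₀ t x).natAbs) (fun x => (D.val i₀ t' x).natAbs)
    (fun y => (D.val j₀ t y).natAbs) (fun y => (D.val j₀ t' y).natAbs)
    (fun x => lam (D.val i₀ t x) * P1 t x * (lam (D.val i₀ t' x) * P1 t' x))
    (fun y => lam (D.val j₀ t y) * P2 t y * (lam (D.val j₀ t' y) * P2 t' y))
    (fun c d : ℕ => (jacobiSym (c : ℤ) d : ℝ)) (fun c d => abs_jac _ _)
    (fun x hx y hy g1 g2 => by
      obtain ⟨-, q1, q2⟩ := hm1 x hx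
      obtain ⟨-, q3, q4⟩ := hm1 y hy
      have a1 := (h2 i₀ x q1).1
      have a2 := (h2' i₀ x q2).1
      have a3 := (h2 i₀ y q3).1
      have a4 := (h2' i₀ y q4).1
      exact h3 i₀ x y (by omega) (by omega))
    (fun x hx y hy g1 g2 => by
      obtain ⟨-, q1, q2⟩ := hm2 x hx
      obtain ⟨-, q3, q4⟩ := hm2 y hy
      have a1 := (h2 j₀ x q1).1
      have a2 := (h2' j₀ x q2).1
      have a3 := (h2 j₀ y q3).1
      have a4 := (h2' j₀ y q4).1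
      exact h3 j₀ x y (by omega) (by omega))
    (fun x hx => by
      obtain ⟨q0, q1, q2⟩ := hm1 x hx
      rw [Finset.mem_filter, Finset.mem_Icc]
      exact ⟨⟨(h2 i₀ x q1).2.2, (h1 i₀ x q0).2.2.1⟩, (h2 i₀ x q1).2.1⟩)
    (fun x hx => by
      obtain ⟨q0, q1, q2⟩ := hm1 x hx
      rw [Finset.mem_range]
      have := (h1 i₀ x q0).2.2.2
      omega)
    (fun x hx => by
      obtain ⟨q0, q1, q2⟩ := hm2 x hx
      rw [Finset.mem_filter, Finset.mem_Icc]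
      exact ⟨⟨(h2 j₀ x q1).2.2, (h1 j₀ x q0).2.2.1⟩, (h2 j₀ x q1).2.1⟩)
    (fun x hx => by
      obtain ⟨q0, q1, q2⟩ := hm2 x hx
      rw [Finset.mem_range]
      have := (h1 j₀ x q0).2.2.2
      omega)
    (a := ℓ ^ 2) (b := ℓ ^ 2) (by positivity) (by positivity)
    (fun x hx => by
      obtain ⟨q0, q1, q2⟩ := hm1 x hx
      exact hAB _ _ _ _ (h1 i₀ x q0).1 (h1 i₀ x q0).2.1 (hP1' _ _) (hP1' _ _))
    (fun x hx => by
      obtain ⟨q0, q1, q2⟩ := hm2 x hx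
      exact hAB _ _ _ _ (h1 j₀ x q0).1 (h1 j₀ x q0).2.1 (hP2' _ _) (hP2' _ _))
  refine mul_le_mul ?_ hb1 (abs_nonneg _) (by positivity)
  rw [abs_mul, sq]
  exact mul_le_mul hKt hKt' (abs_nonneg _) (by positivity)

/-- the sum of the products of two terms -/
theorem cross {C : ℝ} (hC : ∀ X : ℕ, 1 ≤ X → ∀ α β : ℕ → ℝ, (∀ n, |α n| ≤ 1) →
    (∀ n, |β n| ≤ 1) → |∑ p ∈ (Icc 3 X).filter Nat.Prime, ∑ l ∈ (Icc 3 X).filter Nat.Prime,
    α p * β l * (jacobiSym (p : ℤ) l : ℝ)| ≤ C * (X : ℝ) ^ (15 / 8 : ℝ)) {X : ℕ} (hX : 1 ≤ X)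
    (D : Data m) (J : Finset (Fin m × Fin m)) {i₀ j₀ : Fin m} (hJ : (i₀, j₀) ∈ J)
    (hlt : ∀ x ∈ J, x.1 < x.2) {t t' : ℕ} (s : Fin m → Finset (ℤ × ℤ)) {ℓ : ℝ} (hℓ : 1 ≤ ℓ)
    (h1 : ∀ i, ∀ c ∈ s i, |lam (D.val i t c)| ≤ ℓ ∧ |lam (D.val i t' c)| ≤ ℓ ∧
      (D.val i t c).natAbs ≤ X ∧ (D.val i t' c).natAbs ≤ X)
    (h2 : ∀ i c, lam (D.val i t c) ≠ 0 →
      0 < D.val i t c ∧ (D.val i t c).natAbs.Prime ∧ 3 ≤ (D.val i t c).natAbs)
    (h2' : ∀ i c, lam (D.val i t' c) ≠ 0 →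
      0 < D.val i t' c ∧ (D.val i t' c).natAbs.Prime ∧ 3 ≤ (D.val i t' c).natAbs)
    (h3 : ∀ i c c', D.val i t c = D.val i t c' → D.val i t' c = D.val i t' c' → c = c') :
    ((s i₀).card : ℝ) * (s j₀).card * |∑ b ∈ Fintype.piFinset s, E D J t b * E D J t' b| ≤
      (Fintype.piFinset s).card * ((ℓ ^ m) ^ 2 *
        (((X : ℝ) + 1) ^ 2 * (ℓ ^ 2 * ℓ ^ 2 * (C * (X : ℝ) ^ (15 / 8 : ℝ))))) := by
  have e1 := avg s j₀ (fun b => E D J t b * E D J t' b)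
  have e2 := avg s i₀ (fun b => ∑ y ∈ s j₀, E D J t (Function.update b j₀ y) *
    E D J t' (Function.update b j₀ y))
  rw [e1] at e2
  have e3 : ((s i₀).card : ℝ) * (s j₀).card * |∑ b ∈ Fintype.piFinset s, E D J t b * E D J t' b| =
      |((s i₀).card : ℝ) * ((s j₀).card * ∑ b ∈ Fintype.piFinset s, E D J t b * E D J t' b)| := by
    rw [abs_mul, abs_mul, Nat.abs_cast, Nat.abs_cast, mul_assoc]
  rw [e3, ← e2]
  refine (Finset.abs_sum_le_sum_abs _ _).trans ?_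
  refine (Finset.sum_le_card_nsmul _ _ _ fun b hb =>
    cross_fixed hC hX D J hJ hlt s hℓ h1 h2 h2' h3 b hb).trans ?_
  rw [nsmul_eq_mul]

end Pool.Agent.N348.DC
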