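import Pool.Agent.N348.DC.Cross

/-!
The second moment of the twisted sums.
-/

set_option autoImplicit false

namespace Pool.Agent.N348.DC

open Finset Pool.Agent.N718.DC Filter

variable {m : ℕ}

theorem card_bx {H : ℕ} {u v : ℤ × ℤ} (h : inbox H u v) : ((bx u v).card : ℝ) = ar u v := by
  obtain ⟨-, h1, -, -, h2, -⟩ := h
  unfold bx ar
  rw [Finset.card_product, Int.card_Icc, Int.card_Icc]
  push_cast
  have e1 : (((v.1 + 1 - u.1).toNat : ℕ) : ℝ) = (v.1 : ℝ) - u.1 + 1 := by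
    have : (((v.1 + 1 - u.1).toNat : ℕ) : ℤ) = v.1 + 1 - u.1 := Int.toNat_of_nonneg (by omega)
    have h3 : ((((v.1 + 1 - u.1).toNat : ℕ) : ℤ) : ℝ) = ((v.1 + 1 - u.1 : ℤ) : ℝ) := by rw [this]
    push_cast at h3
    rw [h3]
    ring
  have e2 : (((v.2 + 1 - u.2).toNat : ℕ) : ℝ) = (v.2 : ℝ) - u.2 + 1 := by
    have : (((v.2 + 1 - u.2).toNat : ℕ) : ℤ) = v.2 + 1 - u.2 := Int.toNat_of_nonneg (by omega)
    have h3 : ((((v.2 + 1 - u.2).toNat : ℕ) : ℤ) : ℝ) = ((v.2 + 1 - u.2 : ℤ) : ℝ) := by rw [this]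
    push_cast at h3
    rw [h3]
    ring
  rw [e1, e2]

theorem card_box {D : Data m} {κ W H : ℕ} (hD : D.Ok κ W H) :
    ((Fintype.piFinset (fun i => bx (D.u i) (D.v i))).card : ℝ) = D.vol := by
  rw [Fintype.card_piFinset]
  unfold Data.vol
  push_cast
  exact Finset.prod_congr rfl fun i _ => card_bx (hD.hbox i)

theorem val_le {D : Data m} {κ W H : ℕ} (hD : D.Ok κ W H) (hlog : 1 ≤ Real.log H) (i : Fin m)
    {t : ℕ} (ht : t < D.T) {c : ℤ × ℤ} (hc : c ∈ bx (D.u i) (D.v i)) :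
    ((D.val i t c).natAbs : ℝ) ≤ 3 * H * Real.log H ^ (2 * κ) := by
  have hb := hD.hbox i
  obtain ⟨b1, -, b3, b4, -, b6⟩ := hb
  unfold bx at hc
  rw [Finset.mem_product, Finset.mem_Icc, Finset.mem_Icc] at hc
  have hH0 : (0 : ℝ) ≤ H := Nat.cast_nonneg _
  have c1 : |(c.1 : ℝ)| ≤ H := by
    rw [abs_le]
    constructor
    · have : -(H : ℤ) ≤ c.1 := by omega
      exact_mod_cast this
    · have : c.1 ≤ (H : ℤ) := by omega
      exact_mod_cast this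
  have c2 : |(c.2 : ℝ)| ≤ H := by
    rw [abs_le]
    constructor
    · have : -(H : ℤ) ≤ c.2 := by omega
      exact_mod_cast this
    · have : c.2 ≤ (H : ℤ) := by omega
      exact_mod_cast this
  have e1 : ((D.val i t c).natAbs : ℝ) = |((D.val i t c : ℤ) : ℝ)| := by
    rw [Nat.cast_natAbs, Int.cast_abs]
  rw [e1]
  unfold Data.val G
  push_cast
  rw [abs_mul]
  have hs : |((D.s i : ℤ) : ℝ)| = 1 := by
    rcases hD.hs i with h | h <;> rw [h] <;> simp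
  rw [hs, one_mul]
  obtain ⟨lk, hlk⟩ : ∃ lk, lk = Real.log H ^ κ := ⟨_, rfl⟩
  have hlk1 : 1 ≤ lk := by
    rw [hlk]
    exact one_le_pow₀ hlog
  have hL := hD.hL' i
  have hq := hD.hq
  have hy := hD.hy t ht
  have hr := hD.hr i t ht
  rw [← hlk] at hL hq hy hr
  have e2 : Real.log H ^ (2 * κ) = lk * lk := by
    rw [hlk, two_mul, pow_add]
  rw [e2]
  have hL0 : (0 : ℝ) ≤ (D.L i : ℝ) := Nat.cast_nonneg _
  have hq0 : (0 : ℝ) ≤ (D.q : ℝ) := Nat.cast_nonneg _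
  have f1 : |(D.q : ℝ) * c.1 + (D.y t : ℝ) * c.2| ≤ 2 * (lk * H) := by
    refine (abs_add_le _ _).trans ?_
    rw [abs_mul, abs_mul, abs_of_nonneg hq0]
    have g1 := mul_le_mul hq c1 (abs_nonneg _) (by linarith)
    have g2 := mul_le_mul hy c2 (abs_nonneg _) (by linarith)
    linarith
  refine (abs_add_le _ _).trans ?_
  rw [abs_mul, abs_of_nonneg hL0]
  have f2 := mul_le_mul hL f1 (abs_nonneg _) (by linarith)
  have f3 : (H : ℝ) * lk ≤ H * (lk * lk) :=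
    mul_le_mul_of_nonneg_left (le_mul_of_one_le_left (by linarith) hlk1) hH0
  linarith

theorem abs_lam_le {n : ℤ} {X : ℕ} (hX : 1 ≤ X) (hn : n.natAbs ≤ X) :
    |lam n| ≤ Real.log X := by
  have hX0 : 0 ≤ Real.log X := Real.log_nonneg (by exact_mod_cast hX)
  unfold lam
  split_ifs with h
  · have h1 : (1 : ℝ) ≤ n := by
      have : (1 : ℤ) ≤ n := h.1
      exact_mod_cast this
    rw [abs_of_nonneg (Real.log_nonneg h1)]
    refine Real.log_le_log (by linarith) ?_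
    have h2 : n ≤ (X : ℤ) := by omega
    exact_mod_cast h2
  · rw [abs_zero]
    exact hX0

theorem lam_ne {D : Data m} {κ W H : ℕ} (hD : D.Ok κ W H) (i : Fin m) {t : ℕ} (ht : t ∈ D.ts)
    (c : ℤ × ℤ) (h : lam (D.val i t c) ≠ 0) :
    0 < D.val i t c ∧ (D.val i t c).natAbs.Prime ∧ 3 ≤ (D.val i t c).natAbs := by
  have h1 : 0 < D.val i t c ∧ (D.val i t c).natAbs.Prime := by
    by_contra hc
    apply h
    unfold lam
    rw [if_neg hc]
  refine ⟨h1.1, h1.2, ?_⟩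
  have h2 := h1.2.two_le
  by_contra h3
  have h4 : (D.val i t c).natAbs = 2 := by omega
  have h5 : (2 : ℤ) ∣ D.val i t c := by
    rw [← Int.natAbs_dvd_natAbs, h4]
    exact dvd_rfl
  have h6 : (2 : ℤ) ∣ (D.L i : ℤ) := by
    have := hD.hLM i 2 Nat.prime_two hD.h2
    exact_mod_cast this
  have h7 : (2 : ℤ) ∣ (D.L i : ℤ) * ((D.q : ℤ) * c.1 + D.y t * c.2) + D.r i t := by
    unfold Data.val G at h5
    rcases hD.hs i with hs | hs
    · rwa [hs, one_mul] at h5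
    · rw [hs, neg_one_mul] at h5
      exact (dvd_neg.1 h5)
  have h8 : (2 : ℤ) ∣ D.r i t := (Int.dvd_add_right (h6.mul_right _)).1 h7
  have h9 := (hD.co i t ht).isUnit_of_dvd' h8 h6
  rw [Int.isUnit_iff] at h9
  omega

theorem val_inj {D : Data m} {κ W H : ℕ} (hD : D.Ok κ W H) {t t' : ℕ} (htt : t ≠ t')
    (i : Fin m) (c c' : ℤ × ℤ) (h1 : D.val i t c = D.val i t c')
    (h2 : D.val i t' c = D.val i t' c') : c = c' := by
  have hs : D.s i ≠ 0 := by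
    rcases hD.hs i with h | h <;> rw [h] <;> norm_num
  have hL : (D.L i : ℤ) ≠ 0 := by
    have := hD.hL i
    omega
  have hq : (D.q : ℤ) ≠ 0 := by
    have hg : 0 < D.g := Nat.pos_of_dvd_of_pos hD.hg hD.hM
    have hq' : 0 < D.q' := hD.hq'.pos
    have : 0 < D.q := Nat.mul_pos hg hq'
    omega
  have hy : D.y t - D.y t' ≠ 0 := by
    unfold Data.y
    intro h
    have h3 : (D.M : ℤ) * ((t : ℤ) - t') = 0 := by linarith
    rcases mul_eq_zero.1 h3 with h4 | h4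
    · have := hD.hM
      omega
    · omega
  have key : ∀ τ, D.val i τ c = D.val i τ c' →
      (D.q : ℤ) * c.1 + D.y τ * c.2 = (D.q : ℤ) * c'.1 + D.y τ * c'.2 := by
    intro τ h
    unfold Data.val G at h
    have h3 := mul_left_cancel₀ hs h
    have h4 := mul_left_cancel₀ hL (add_right_cancel h3)
    exact h4
  have k1 := key t h1
  have k2 := key t' h2
  have k3 : (D.y t - D.y t') * (c.2 - c'.2) = 0 := by linarith
  have k4 : c.2 = c'.2 := by
    rcases mul_eq_zero.1 k3 with h | h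
    · exact absurd h hy
    · omega
  have k5 : c.1 = c'.1 := by
    rw [k4] at k1
    exact mul_left_cancel₀ hq (add_right_cancel k1)
  exact Prod.ext k5 k4

/-- the estimates for large `H` -/
theorem large (m κ : ℕ) (C : ℝ) (hC : 0 ≤ C) : ∃ H₀ : ℕ, ∀ H : ℕ, H₀ ≤ H →
    1 ≤ H ∧ (2 : ℝ) ^ (m + 1) ≤ Real.log H ∧ 1 ≤ Real.log H ∧
    3 * Real.log H ^ (2 * κ) ≤ H ∧
    (324 * C * 2 ^ (2 * m + 5)) * Real.log H ^ (2 * m + 9 + 8 * κ) ≤ (H : ℝ) ^ (1 / 8 : ℝ) := by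
  have h1 : ∀ᶠ x : ℝ in atTop, (2 : ℝ) ^ (m + 1) ≤ Real.log x :=
    Real.tendsto_log_atTop.eventually_ge_atTop _
  have h2 : ∀ᶠ x : ℝ in atTop, (1 : ℝ) ≤ Real.log x :=
    Real.tendsto_log_atTop.eventually_ge_atTop _
  have h3 : ∀ᶠ x : ℝ in atTop, 3 * Real.log x ^ (2 * κ) ≤ x := by
    have h := (Real.isLittleO_pow_log_id_atTop (n := 2 * κ)).def (show (0 : ℝ) < 1 / 3 by norm_num)
    filter_upwards [h, eventually_ge_atTop 0] with x hx hx0
    rw [id, Real.norm_eq_abs, Real.norm_eq_abs, abs_of_nonneg hx0] at hx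
    have := le_abs_self (Real.log x ^ (2 * κ))
    linarith
  have h4 : ∀ᶠ x : ℝ in atTop, (324 * C * 2 ^ (2 * m + 5)) *
      Real.log x ^ (2 * m + 9 + 8 * κ) ≤ x ^ (1 / 8 : ℝ) := by
    obtain ⟨C₁, hC₁⟩ : ∃ C₁ : ℝ, C₁ = 324 * C * 2 ^ (2 * m + 5) := ⟨_, rfl⟩
    have hC₁0 : 0 ≤ C₁ := by rw [hC₁]; positivity
    have h := (isLittleO_log_rpow_rpow_atTop ((2 * m + 9 + 8 * κ : ℕ) : ℝ)
      (show (0 : ℝ) < 1 / 8 by norm_num)).def (show (0 : ℝ) < 1 / (C₁ + 1) by positivity)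
    filter_upwards [h, eventually_ge_atTop 0] with x hx hx0
    rw [← hC₁]
    rw [Real.rpow_natCast, Real.norm_eq_abs, Real.norm_eq_abs,
      abs_of_nonneg (Real.rpow_nonneg hx0 _)] at hx
    have h5 := le_abs_self (Real.log x ^ (2 * m + 9 + 8 * κ))
    have h6 : 0 ≤ x ^ (1 / 8 : ℝ) := Real.rpow_nonneg hx0 _
    have h7 := mul_le_mul_of_nonneg_left (h5.trans hx) hC₁0
    refine h7.trans ?_
    rw [← mul_assoc]
    refine mul_le_of_le_one_left h6 ?_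
    rw [mul_one_div, div_le_one (by positivity)]
    linarith
  have h5 := tendsto_natCast_atTop_atTop (R := ℝ) |>.eventually
    (h1.and (h2.and (h3.and h4)))
  obtain ⟨H₀, hH₀⟩ := Filter.eventually_atTop.1 (h5.and (eventually_ge_atTop 1))
  exact ⟨H₀, fun H hH => ⟨(hH₀ H hH).2, (hH₀ H hH).1.1, (hH₀ H hH).1.2.1, (hH₀ H hH).1.2.2.1,
    (hH₀ H hH).1.2.2.2⟩⟩

theorem num_bound {m κ : ℕ} {C : ℝ} (hC : 0 ≤ C) {H X : ℕ} (hH : 1 ≤ H)
    (hlog : 1 ≤ Real.log H) (hX : H ≤ X) (hXY : (X : ℝ) ≤ 3 * H * Real.log H ^ (2 * κ))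
    (h4 : (324 * C * 2 ^ (2 * m + 5)) * Real.log H ^ (2 * m + 9 + 8 * κ) ≤
      (H : ℝ) ^ (1 / 8 : ℝ)) :
    2 * Real.log H * ((((2 * Real.log H) ^ m) ^ 2 * (((X : ℝ) + 1) ^ 2 *
      ((2 * Real.log H) ^ 2 * (2 * Real.log H) ^ 2 * (C * (X : ℝ) ^ (15 / 8 : ℝ))))) *
      Real.log H ^ 4) ≤ (H : ℝ) ^ 4 := by
  obtain ⟨w, hw⟩ : ∃ w, w = Real.log H := ⟨_, rfl⟩
  rw [← hw] at hlog hXY h4 ⊢
  have hw0 : 0 < w := by linarith
  have hH1 : (1 : ℝ) ≤ H := by exact_mod_cast hH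
  have hX1 : (1 : ℝ) ≤ X := by
    have : 1 ≤ X := hH.trans hX
    exact_mod_cast this
  have hHX : (H : ℝ) ≤ X := by exact_mod_cast hX
  obtain ⟨h8, hh8⟩ : ∃ h8, h8 = (H : ℝ) ^ (1 / 8 : ℝ) := ⟨_, rfl⟩
  rw [← hh8] at h4
  have h80 : 0 < h8 := by
    rw [hh8]
    exact Real.rpow_pos_of_pos (by linarith) _
  -- `X ^ (15/8) * H ^ (1/8) ≤ X ^ 2`
  have e1 : (X : ℝ) ^ (15 / 8 : ℝ) * h8 ≤ (X : ℝ) ^ 2 := by
    have e2 : (X : ℝ) ^ 2 = (X : ℝ) ^ (15 / 8 : ℝ) * (X : ℝ) ^ (1 / 8 : ℝ) := by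
      rw [← Real.rpow_natCast, ← Real.rpow_add (by linarith)]
      norm_num
    rw [e2, hh8]
    exact mul_le_mul_of_nonneg_left (Real.rpow_le_rpow (by linarith) hHX (by norm_num))
      (Real.rpow_nonneg (by linarith) _)
  have e3 : ((X : ℝ) + 1) ^ 2 * ((X : ℝ) ^ (15 / 8 : ℝ) * h8) ≤ 324 * H ^ 4 * w ^ (8 * κ) := by
    have f1 : ((X : ℝ) + 1) ^ 2 ≤ 4 * (X : ℝ) ^ 2 := by nlinarith
    have f2 : ((X : ℝ) + 1) ^ 2 * ((X : ℝ) ^ (15 / 8 : ℝ) * h8) ≤
        (4 * (X : ℝ) ^ 2) * (X : ℝ) ^ 2 :=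
      mul_le_mul f1 e1 (mul_nonneg (Real.rpow_nonneg (by linarith) _) h80.le) (by positivity)
    refine f2.trans ?_
    have f3 : (4 * (X : ℝ) ^ 2) * (X : ℝ) ^ 2 = 4 * (X : ℝ) ^ 4 := by ring
    rw [f3]
    have f4 : (X : ℝ) ^ 4 ≤ (3 * H * w ^ (2 * κ)) ^ 4 :=
      pow_le_pow_left₀ (by linarith) hXY 4
    have f5 : (3 * (H : ℝ) * w ^ (2 * κ)) ^ 4 = 81 * H ^ 4 * w ^ (8 * κ) := by
      rw [mul_pow, mul_pow, ← pow_mul]
      norm_num
      left
      ring_nf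
    rw [f5] at f4
    linarith
  -- the main estimate, after multiplication by `h8`
  refine le_of_mul_le_mul_right (a := h8) ?_ h80
  have e4 : 2 * w * ((((2 * w) ^ m) ^ 2 * (((X : ℝ) + 1) ^ 2 *
      ((2 * w) ^ 2 * (2 * w) ^ 2 * (C * (X : ℝ) ^ (15 / 8 : ℝ))))) * w ^ 4) * h8 =
      (C * 2 ^ (2 * m + 5) * w ^ (2 * m + 9)) *
        (((X : ℝ) + 1) ^ 2 * ((X : ℝ) ^ (15 / 8 : ℝ) * h8)) := by
    have g1 : ((2 * w) ^ m) ^ 2 = 2 ^ (2 * m) * w ^ (2 * m) := by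
      rw [← pow_mul, mul_pow, mul_comm m 2]
    rw [g1, pow_add 2 (2 * m) 5, pow_add w (2 * m) 9]
    ring
  rw [e4]
  have e5 : (C * 2 ^ (2 * m + 5) * w ^ (2 * m + 9)) *
        (((X : ℝ) + 1) ^ 2 * ((X : ℝ) ^ (15 / 8 : ℝ) * h8)) ≤
      (C * 2 ^ (2 * m + 5) * w ^ (2 * m + 9)) * (324 * H ^ 4 * w ^ (8 * κ)) :=
    mul_le_mul_of_nonneg_left e3 (by positivity)
  refine e5.trans ?_
  have e6 : (C * 2 ^ (2 * m + 5) * w ^ (2 * m + 9)) * (324 * (H : ℝ) ^ 4 * w ^ (8 * κ)) =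
      (H : ℝ) ^ 4 * ((324 * C * 2 ^ (2 * m + 5)) * w ^ (2 * m + 9 + 8 * κ)) := by
    rw [pow_add w (2 * m + 9) (8 * κ)]
    ring
  rw [e6]
  exact mul_le_mul_of_nonneg_left h4 (by positivity)

theorem tw_ (h : S_BIL) : S_TW := by
  classical
  intro m κ W
  obtain ⟨C, hC0, hC⟩ := h
  obtain ⟨H₀, hH₀⟩ := large m κ C hC0
  refine ⟨H₀, fun H hH D hD J hJne hlt => ?_⟩
  obtain ⟨hH1, hl1, hl2, hl3, hl4⟩ := hH₀ H hH
  have hHr : (1 : ℝ) ≤ H := by exact_mod_cast hH1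
  have hlog0 : 0 < Real.log H := by linarith
  obtain ⟨X, hX⟩ : ∃ X : ℕ, X = ⌊3 * (H : ℝ) * Real.log H ^ (2 * κ)⌋₊ := ⟨_, rfl⟩
  have hlk : 1 ≤ Real.log H ^ (2 * κ) := one_le_pow₀ hl2
  have hXY : (X : ℝ) ≤ 3 * H * Real.log H ^ (2 * κ) := by
    rw [hX]
    exact Nat.floor_le (by positivity)
  have hHX : H ≤ X := by
    rw [hX]
    refine Nat.le_floor ?_
    nlinarith
  have hX1 : 1 ≤ X := hH1.trans hHX
  have hlogX : Real.log X ≤ 2 * Real.log H := by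
    have h1 : (X : ℝ) ≤ (H : ℝ) ^ 2 := by
      refine hXY.trans ?_
      nlinarith
    have h2 : 0 < (X : ℝ) := by exact_mod_cast hX1
    refine (Real.log_le_log h2 h1).trans (le_of_eq ?_)
    rw [Real.log_pow]
    norm_num
  have hℓ1 : 1 ≤ 2 * Real.log H := by linarith
  have htsT : ∀ t ∈ D.ts, t < D.T := by
    intro t ht
    unfold Data.ts at ht
    rw [Finset.mem_filter, Finset.mem_range] at ht
    exact ht.1
  have hvX : ∀ t ∈ D.ts, ∀ i, ∀ c ∈ bx (D.u i) (D.v i), (D.val i t c).natAbs ≤ X := by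
    intro t ht i c hc
    rw [hX]
    exact Nat.le_floor (val_le hD hl2 i (htsT t ht) hc)
  have hlamX : ∀ t ∈ D.ts, ∀ i, ∀ c ∈ bx (D.u i) (D.v i),
      |lam (D.val i t c)| ≤ 2 * Real.log H := fun t ht i c hc =>
    (abs_lam_le hX1 (hvX t ht i c hc)).trans hlogX
  have hvol := card_box hD
  have hvol0 : 0 ≤ D.vol := by
    rw [← hvol]
    exact Nat.cast_nonneg _
  obtain ⟨⟨i₀, j₀⟩, hJ⟩ := hJne
  -- cross terms
  have hcross : ∀ t ∈ D.ts, ∀ t' ∈ D.ts, t ≠ t' →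
      ∑ b ∈ D.box, E D J t b * E D J t' b ≤ D.vol / (2 * Real.log H) := by
    intro t ht t' ht' htt
    have h1 := cross hC hX1 D J hJ hlt (t := t) (t' := t') (fun i => bx (D.u i) (D.v i)) hℓ1
      (fun i c hc => ⟨hlamX t ht i c hc, hlamX t' ht' i c hc, hvX t ht i c hc,
        hvX t' ht' i c hc⟩)
      (fun i c hc => lam_ne hD i ht c hc) (fun i c hc => lam_ne hD i ht' c hc)
      (fun i c c' => val_inj hD htt i c c')
    rw [hvol, card_bx (hD.hbox i₀), card_bx (hD.hbox j₀)] at h1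
    have har : ∀ i, ((H : ℝ) / Real.log H) ^ 2 ≤ ar (D.u i) (D.v i) := by
      intro i
      obtain ⟨g1, g2⟩ := hD.hu i
      unfold ar
      rw [sq]
      have g3 : 0 ≤ (H : ℝ) / Real.log H := by positivity
      exact mul_le_mul (by linarith) (by linarith) g3 (by linarith)
    have h2 : (H : ℝ) ^ 4 / Real.log H ^ 4 *
        |∑ b ∈ D.box, E D J t b * E D J t' b| ≤ D.vol * (((2 * Real.log H) ^ m) ^ 2 *
        (((X : ℝ) + 1) ^ 2 * ((2 * Real.log H) ^ 2 * (2 * Real.log H) ^ 2 *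
          (C * (X : ℝ) ^ (15 / 8 : ℝ))))) := by
      refine le_trans (mul_le_mul_of_nonneg_right ?_ (abs_nonneg _)) h1
      have h3 := mul_le_mul (har i₀) (har j₀) (by positivity) ((by positivity : (0 : ℝ) ≤
        ((H : ℝ) / Real.log H) ^ 2).trans (har i₀))
      refine le_trans (le_of_eq ?_) h3
      rw [div_pow]
      ring
    have h5 := num_bound hC0 hH1 hl2 hHX hXY hl4
    obtain ⟨K, hK⟩ : ∃ K, K = ((2 * Real.log H) ^ m) ^ 2 *
        (((X : ℝ) + 1) ^ 2 * ((2 * Real.log H) ^ 2 * (2 * Real.log H) ^ 2 *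
          (C * (X : ℝ) ^ (15 / 8 : ℝ)))) := ⟨_, rfl⟩
    rw [← hK] at h2 h5
    refine (le_abs_self _).trans ?_
    rw [div_mul_eq_mul_div, div_le_iff₀ (by positivity)] at h2
    rw [le_div_iff₀ (by positivity)]
    have hH4 : (0 : ℝ) < (H : ℝ) ^ 4 := by positivity
    refine le_of_mul_le_mul_left ?_ hH4
    calc (H : ℝ) ^ 4 * (|∑ b ∈ D.box, E D J t b * E D J t' b| * (2 * Real.log H))
        = ((H : ℝ) ^ 4 * |∑ b ∈ D.box, E D J t b * E D J t' b|) * (2 * Real.log H) := by ring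
      _ ≤ (D.vol * K * Real.log H ^ 4) * (2 * Real.log H) :=
          mul_le_mul_of_nonneg_right h2 (by positivity)
      _ = D.vol * (2 * Real.log H * (K * Real.log H ^ 4)) := by ring
      _ ≤ D.vol * (H : ℝ) ^ 4 := mul_le_mul_of_nonneg_left h5 hvol0
      _ = (H : ℝ) ^ 4 * D.vol := by ring
  -- diagonal terms
  have hdiag : ∀ t ∈ D.ts, ∑ b ∈ D.box, E D J t b * E D J t b ≤
      D.vol * (2 * Real.log H) ^ (2 * m) := by
    intro t ht
    have h1 : ∀ b ∈ D.box, E D J t b * E D J t b ≤ (2 * Real.log H) ^ (2 * m) := by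
      intro b hb
      have h2 : |E D J t b| ≤ (2 * Real.log H) ^ m := by
        unfold E
        rw [abs_mul]
        have h3 : |D.f t b| ≤ (2 * Real.log H) ^ m := by
          unfold Data.f
          rw [Finset.abs_prod]
          unfold Data.box at hb
          rw [Fintype.mem_piFinset] at hb
          calc ∏ i, |lam (D.val i t (b i))| ≤ ∏ _i : Fin m, (2 * Real.log H) :=
                Finset.prod_le_prod (fun i _ => abs_nonneg _) fun i _ => hlamX t ht i _ (hb i)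
            _ = (2 * Real.log H) ^ m := by
                rw [Finset.prod_const, Finset.card_univ, Fintype.card_fin]
        have h4 := mul_le_mul h3 (abs_prod_jc D t b J) (abs_nonneg _) (by positivity)
        linarith
      rw [← abs_mul_abs_self, mul_comm 2 m, pow_mul, sq]
      exact mul_le_mul h2 h2 (abs_nonneg _) (by positivity)
    refine (Finset.sum_le_card_nsmul _ _ _ h1).trans ?_
    rw [nsmul_eq_mul]
    unfold Data.box
    rw [hvol]
  -- the sum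
  have e1 : ∑ b ∈ D.box, (∑ t ∈ D.ts, D.f t b * ∏ x ∈ J,
      (jacobiSym (D.val x.1 t (b x.1)) (D.val x.2 t (b x.2)).natAbs : ℝ)) ^ 2 =
      ∑ t ∈ D.ts, ∑ t' ∈ D.ts, ∑ b ∈ D.box, E D J t b * E D J t' b := by
    have e2 : ∀ b, (∑ t ∈ D.ts, D.f t b * ∏ x ∈ J,
      (jacobiSym (D.val x.1 t (b x.1)) (D.val x.2 t (b x.2)).natAbs : ℝ)) ^ 2 =
      ∑ t ∈ D.ts, ∑ t' ∈ D.ts, E D J t b * E D J t' b := by
      intro b
      rw [sq, Finset.sum_mul_sum]
      rfl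
    simp only [e2]
    rw [Finset.sum_comm]
    refine Finset.sum_congr rfl fun t _ => ?_
    rw [Finset.sum_comm]
  rw [e1]
  have hcard : ((D.ts.card : ℕ) : ℝ) ≤ D.T := by
    have : D.ts.card ≤ D.T := by
      unfold Data.ts
      refine (Finset.card_filter_le _ _).trans ?_
      rw [Finset.card_range]
    exact_mod_cast this
  have e3 : ∀ t ∈ D.ts, ∑ t' ∈ D.ts, ∑ b ∈ D.box, E D J t b * E D J t' b ≤
      D.vol * (2 * Real.log H) ^ (2 * m) + D.T * (D.vol / (2 * Real.log H)) := by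
    intro t ht
    rw [← Finset.add_sum_erase D.ts _ ht]
    refine add_le_add (hdiag t ht) ?_
    refine (Finset.sum_le_card_nsmul _ _ _ fun t' ht' => hcross t ht t'
      (Finset.mem_of_mem_erase ht') (Finset.ne_of_mem_erase ht').symm).trans ?_
    rw [nsmul_eq_mul]
    refine mul_le_mul_of_nonneg_right ?_ (by positivity)
    refine le_trans ?_ hcard
    exact_mod_cast Finset.card_erase_le
  refine (Finset.sum_le_card_nsmul _ _ _ e3).trans ?_
  rw [nsmul_eq_mul]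
  have hT0 : (0 : ℝ) ≤ D.T := Nat.cast_nonneg _
  have e4 : (D.ts.card : ℝ) * (D.vol * (2 * Real.log H) ^ (2 * m) +
      D.T * (D.vol / (2 * Real.log H))) ≤ D.T * (D.vol * (2 * Real.log H) ^ (2 * m) +
      D.T * (D.vol / (2 * Real.log H))) := mul_le_mul_of_nonneg_right hcard (by positivity)
  refine e4.trans ?_
  have e5 : (2 * Real.log H) ^ (2 * m) ≤ D.T / (2 * Real.log H) := by
    rw [le_div_iff₀ (by positivity)]
    refine le_trans ?_ hD.hT
    have g1 : (2 * Real.log H) ^ (2 * m) * (2 * Real.log H) =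
        2 ^ (2 * m + 1) * Real.log H ^ (2 * m + 1) := by
      rw [← pow_succ, mul_pow]
    rw [g1, show 2 * m + 3 = 2 + (2 * m + 1) by ring, pow_add (Real.log H) 2 (2 * m + 1)]
    refine mul_le_mul_of_nonneg_right ?_ (by positivity)
    have g2 : ((2 : ℝ) ^ (m + 1)) ^ 2 ≤ Real.log H ^ 2 := pow_le_pow_left₀ (by positivity) hl1 2
    refine le_trans ?_ g2
    rw [← pow_mul]
    exact pow_le_pow_right₀ (by norm_num) (by omega)
  have e6 : D.vol * (2 * Real.log H) ^ (2 * m) ≤ D.vol * (D.T / (2 * Real.log H)) :=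
    mul_le_mul_of_nonneg_left e5 hvol0
  calc (D.T : ℝ) * (D.vol * (2 * Real.log H) ^ (2 * m) + D.T * (D.vol / (2 * Real.log H)))
      ≤ D.T * (D.vol * (D.T / (2 * Real.log H)) + D.T * (D.vol / (2 * Real.log H))) :=
        mul_le_mul_of_nonneg_left (add_le_add_left e6 _) hT0
    _ = 1 / Real.log H * D.T ^ 2 * D.vol := by
        field_simp
        ring

end Pool.Agent.N348.DC
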